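import Mathlib

/-! Abstract self-similar structures, almost invariant weights, passing to powers. -/

namespace Pool.Agent.Lib.MP_b169d2_gt

open scoped ENNReal

/-- A self-similar action of `G` over the alphabet `A`. -/
structure SS (G A : Type) [Group G] where
  im : G → A → A
  se : G → A → G
  im_one : ∀ a, im 1 a = a
  se_one : ∀ a, se 1 a = 1
  im_mul : ∀ g h a, im (g * h) a = im g (im h a)
  se_mul : ∀ g h a, se (g * h) a = se g (im h a) * se h a

/-- The squared difference. -/
noncomputable def dq (x y : ℝ) : ℝ≥0∞ := ENNReal.ofReal ((x - y) ^ 2)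

lemma dq_comm (x y : ℝ) : dq x y = dq y x := by unfold dq; congr 1; ring

@[simp] lemma dq_self (x : ℝ) : dq x x = 0 := by simp [dq]

lemma dq_ne_top (x y : ℝ) : dq x y ≠ ⊤ := ENNReal.ofReal_ne_top

lemma dq_tri (x y z : ℝ) : dq x z ≤ 2 * dq x y + 2 * dq y z := by
  unfold dq
  rw [← ENNReal.ofReal_ofNat, ← ENNReal.ofReal_mul (by norm_num), ← ENNReal.ofReal_mul (by norm_num),
    ← ENNReal.ofReal_add (by positivity) (by positivity)]
  exact ENNReal.ofReal_le_ofReal (by nlinarith [sq_nonneg (x - 2 * y + z)])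

lemma tsum_tri {ι : Type} (f g h : ι → ℝ) :
    ∑' i, dq (f i) (h i) ≤ 2 * ∑' i, dq (f i) (g i) + 2 * ∑' i, dq (g i) (h i) := by
  rw [← ENNReal.tsum_mul_left, ← ENNReal.tsum_mul_left, ← ENNReal.tsum_add]
  exact ENNReal.tsum_le_tsum fun i => dq_tri _ _ _

lemma fin_tri {ι : Type} {f g h : ι → ℝ} (h1 : ∑' i, dq (f i) (g i) ≠ ⊤)
    (h2 : ∑' i, dq (g i) (h i) ≠ ⊤) : ∑' i, dq (f i) (h i) ≠ ⊤ :=
  ne_top_of_le_ne_top (by finiteness) (tsum_tri f g h)

lemma fin_symm {ι : Type} {f g : ι → ℝ} (h1 : ∑' i, dq (f i) (g i) ≠ ⊤) :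
    ∑' i, dq (g i) (f i) ≠ ⊤ := by simpa only [dq_comm] using h1

namespace SS

variable {G A : Type} [Group G] (S : SS G A)

def imL : G → List A → List A
  | _, [] => []
  | g, a :: l => S.im g a :: imL (S.se g a) l

def seL : G → List A → G
  | g, [] => g
  | g, a :: l => seL (S.se g a) l

@[simp] lemma imL_nil (g : G) : S.imL g [] = [] := rfl
@[simp] lemma seL_nil (g : G) : S.seL g [] = g := rfl
@[simp] lemma imL_cons (g : G) (a l) : S.imL g (a :: l) = S.im g a :: S.imL (S.se g a) l := rfl
@[simp] lemma seL_cons (g : G) (a l) : S.seL g (a :: l) = S.seL (S.se g a) l := rfl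

@[simp] lemma imL_one (l : List A) : S.imL 1 l = l := by
  induction l <;> simp_all [S.im_one, S.se_one]

@[simp] lemma seL_one (l : List A) : S.seL 1 l = 1 := by
  induction l <;> simp_all [S.se_one]

@[simp] lemma length_imL (g : G) (l : List A) : (S.imL g l).length = l.length := by
  induction l generalizing g <;> simp_all

lemma imL_mul (g h : G) (l : List A) : S.imL (g * h) l = S.imL g (S.imL h l) := by
  induction l generalizing g h <;> simp_all [S.im_mul, S.se_mul]

lemma seL_mul (g h : G) (l : List A) : S.seL (g * h) l = S.seL g (S.imL h l) * S.seL h l := by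
  induction l generalizing g h <;> simp_all [S.se_mul]

lemma imL_append (g : G) (l l' : List A) :
    S.imL g (l ++ l') = S.imL g l ++ S.imL (S.seL g l) l' := by
  induction l generalizing g <;> simp_all

lemma seL_append (g : G) (l l' : List A) : S.seL g (l ++ l') = S.seL (S.seL g l) l' := by
  induction l generalizing g <;> simp_all

lemma im_inj (g : G) : Function.Injective (S.im g) := fun a b h => by
  rw [← S.im_one a, ← S.im_one b, ← inv_mul_cancel g, S.im_mul, S.im_mul, h]

lemma se_inv (g : G) (a : A) : S.se g⁻¹ (S.im g a) = (S.se g a)⁻¹ := by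
  rw [eq_inv_iff_mul_eq_one, ← S.se_mul, inv_mul_cancel, S.se_one]

lemma seL_inv (g : G) (a : List A) : S.seL g⁻¹ (S.imL g a) = (S.seL g a)⁻¹ := by
  rw [eq_inv_iff_mul_eq_one, ← S.seL_mul, inv_mul_cancel, S.seL_one]

/-- The action on pairs (word, group element). -/
def act (g : G) (e : List A × G) : List A × G := (S.imL g e.1, S.seL g e.1 * e.2)

@[simp] lemma act_one (e : List A × G) : S.act 1 e = e := by simp [act]

lemma act_mul (g h : G) (e : List A × G) : S.act (g * h) e = S.act g (S.act h e) := by
  simp [act, imL_mul, seL_mul, mul_assoc]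

/-- The action as a permutation. -/
def actE (g : G) : List A × G ≃ List A × G where
  toFun := S.act g
  invFun := S.act g⁻¹
  left_inv e := by rw [← act_mul]; simp
  right_inv e := by rw [← act_mul]; simp

/-- Prepending a word. -/
def pre (u : List A) (e : List A × G) : List A × G := (u ++ e.1, e.2)

lemma act_pre (g : G) (u : List A) (e : List A × G) :
    S.act g (pre u e) = pre (S.imL g u) (S.act (S.seL g u) e) := by
  simp [act, pre, imL_append, seL_append]

/-- Almost invariant weights. -/
structure Good (F : List A × G → ℝ) (M : Finset G) : Prop where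
  supp : ∀ v h, h ∉ M → F (v, h) = 0
  mass : ∀ v, ∑ h ∈ M, F (v, h) = 1
  shift : ∀ a, ∑' e, dq (F (pre [a] e)) (F e) ≠ ⊤
  inv : ∀ g, ∑' e, dq (F (S.act g e)) (F e) ≠ ⊤

variable {S}

lemma Good.shiftL {F : List A × G → ℝ} {M : Finset G} (h : S.Good F M) (u : List A) :
    ∑' e, dq (F (pre u e)) (F e) ≠ ⊤ := by
  induction u with
  | nil => simp [pre]
  | cons a u ih =>
    refine fin_tri (g := fun e => F (pre u e)) (ne_top_of_le_ne_top (h.shift a) ?_) ih
    exact ENNReal.tsum_comp_le_tsum_of_injective (f := pre u)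
      (fun e e' h => by simpa [pre, Prod.ext_iff] using h) fun e => dq (F (pre [a] e)) (F e)

lemma Good.move {F : List A × G → ℝ} {M : Finset G} (h : S.Good F M) (u u' : List A) (g : G) :
    ∑' e, dq (F (pre u (S.act g e))) (F (pre u' e)) ≠ ⊤ := by
  refine fin_tri (g := fun e => F (S.act g e)) ?_ (fin_tri (h.inv g) (fin_symm (h.shiftL u')))
  exact ((S.actE g).tsum_eq fun e => dq (F (pre u e)) (F e)).trans_ne (h.shiftL u)

/-- The elements under which `F` is almost invariant form a subgroup. -/
lemma inv_closure {F : List A × G → ℝ} {N : Set G} (hN : Subgroup.closure N = ⊤)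
    (h : ∀ g ∈ N, ∑' e, dq (F (S.act g e)) (F e) ≠ ⊤) (g : G) :
    ∑' e, dq (F (S.act g e)) (F e) ≠ ⊤ := by
  have : g ∈ Subgroup.closure N := hN ▸ trivial
  induction this using Subgroup.closure_induction with
  | mem g hg => exact h g hg
  | one => simp
  | mul g g' _ _ h1 h2 =>
    simp only [act_mul]
    exact fin_tri (((S.actE g').tsum_eq fun e => dq (F (S.act g e)) (F e)).trans_ne h1) h2
  | inv g _ h1 =>
    rw [← (S.actE g).tsum_eq]
    refine fin_symm ?_
    simpa [actE, ← act_mul] using h1

variable (S)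

/-- The `T`-th power of a self-similar structure. -/
def pow (T : ℕ) : SS G (List.Vector A T) where
  im g z := ⟨S.imL g z.1, (S.length_imL _ _).trans z.2⟩
  se g z := S.seL g z.1
  im_one _ := Subtype.ext (S.imL_one _)
  se_one _ := S.seL_one _
  im_mul _ _ _ := Subtype.ext (S.imL_mul _ _ _)
  se_mul _ _ _ := S.seL_mul _ _ _

/-- Concatenation of blocks. -/
def flat {T : ℕ} : List (List.Vector A T) → List A
  | [] => []
  | z :: W => z.1 ++ flat W

lemma length_flat {T : ℕ} (W : List (List.Vector A T)) : (flat W).length = W.length * T := by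
  induction W with
  | nil => simp [flat]
  | cons z W ih => simp [flat, ih, z.2]; ring

lemma imL_flat {T : ℕ} (g : G) (W : List (List.Vector A T)) :
    S.imL g (flat W) = flat ((S.pow T).imL g W) ∧ S.seL g (flat W) = (S.pow T).seL g W := by
  induction W generalizing g with
  | nil => simp [flat]
  | cons z W ih => simp [flat, imL_append, seL_append, ih, pow]

lemma flat_inj {T : ℕ} (hT : 0 < T) : Function.Injective (flat : List (List.Vector A T) → _) := by
  intro W W' h
  have hl : W.length = W'.length := by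
    have := congrArg List.length h
    rw [length_flat, length_flat] at this
    exact Nat.eq_of_mul_eq_mul_right hT this
  induction W generalizing W' with
  | nil => exact (List.length_eq_zero_iff.1 hl.symm).symm
  | cons z W ih =>
    obtain _ | ⟨z', W'⟩ := W'
    · simp at hl
    · obtain ⟨h1, h2⟩ := List.append_inj h (z.2.trans z'.2.symm)
      rw [Subtype.ext h1, ih h2 (by simpa using hl)]

lemma flat_surj {T : ℕ} (k : ℕ) (v : List A) (hv : v.length = k * T) :
    ∃ W : List (List.Vector A T), flat W = v := by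
  induction k generalizing v with
  | zero => exact ⟨[], (List.length_eq_zero_iff.1 (by simpa using hv)).symm⟩
  | succ k ih =>
    obtain ⟨W, hW⟩ := ih (v.drop T) (by simp [hv, add_mul])
    exact ⟨⟨v.take T, by simp [hv, add_mul]⟩ :: W, by simp [flat, hW]⟩

variable {S}

theorem Good.ofPow [Finite A] {T : ℕ} (hT : 0 < T) {F : List (List.Vector A T) × G → ℝ}
    {M : Finset G} (h : (S.pow T).Good F M) : ∃ F', S.Good F' M := by
  let j : {u : List A // u.length < T} × (List (List.Vector A T) × G) → List A × G :=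
    fun p => pre p.1.1 (flat p.2.1, p.2.2)
  have ji : Function.Injective j := by
    rintro ⟨⟨u, hu⟩, W, g⟩ ⟨⟨u', hu'⟩, W', g'⟩ e
    simp only [j, pre, Prod.mk.injEq] at e
    have hl := congrArg (fun l => l.length % T) e.1
    simp only [List.length_append, length_flat, Nat.add_mul_mod_self_right, Nat.mod_eq_of_lt hu,
      Nat.mod_eq_of_lt hu'] at hl
    obtain ⟨h1, h2⟩ := List.append_inj e.1 hl
    simp [h1, flat_inj hT h2, e.2]
  have js : Function.Surjective j := by
    rintro ⟨v, g⟩
    have := Nat.mod_add_div' v.length T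
    obtain ⟨W, hW⟩ := flat_surj (T := T) (v.length / T) (v.drop (v.length % T)) (by simp; omega)
    exact ⟨⟨⟨v.take (v.length % T), by have := Nat.mod_lt v.length hT; simp; omega⟩, W, g⟩,
      by simp [j, pre, hW]⟩
  let J := Equiv.ofBijective j ⟨ji, js⟩
  have hF : ∀ p, F (J.symm (j p)).2 = F p.2 := fun p => by
    rw [show j p = J p from rfl, J.symm_apply_apply]
  have : Finite {u : List A // u.length < T} := List.finite_length_lt A T
  have := Fintype.ofFinite {u : List A // u.length < T}
  have key : ∀ f : List A × G → ℝ≥0∞, (∀ u, ∑' e, f (j (u, e)) ≠ ⊤) → ∑' e, f e ≠ ⊤ := by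
    intro f hf
    rw [← J.tsum_eq, ENNReal.tsum_prod', tsum_fintype]
    exact ENNReal.sum_ne_top.2 fun u _ => hf u
  refine ⟨fun e => F (J.symm e).2, fun v g hg => ?_, fun v => ?_, fun a => key _ fun u => ?_,
    fun g => key _ fun u => ?_⟩
  · obtain ⟨⟨u, W, g'⟩, e⟩ := js (v, g)
    obtain rfl : g' = g := congrArg Prod.snd e
    rw [← e, hF]; exact h.supp _ _ hg
  · obtain ⟨⟨u, W, g'⟩, e⟩ := js (v, 1)
    obtain rfl : u.1 ++ flat W = v := congrArg Prod.fst e
    exact (Finset.sum_congr rfl fun g _ => hF (u, W, g)).trans (h.mass W)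
  · simp only [hF]
    rcases (Nat.succ_le_of_lt u.2).eq_or_lt with h1 | h1
    · have : ∀ e, pre [a] (j (u, e)) = j (⟨[], hT⟩, pre [⟨a :: u.1, h1⟩] e) := fun e => by
        simp [j, pre, flat]
      simp only [this, hF]
      exact h.shift _
    · have : ∀ e, pre [a] (j (u, e)) = j (⟨a :: u.1, h1⟩, e) := fun e => by simp [j, pre]
      simp [this, hF]
  · have : ∀ e, S.act g (j (u, e)) =
        j (⟨S.imL g u.1, by simpa using u.2⟩, (S.pow T).act (S.seL g u.1) e) := fun e => by
      simp only [j, act_pre]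
      simp [act, imL_flat]
    simp only [this, hF]
    exact h.inv _

end SS

end Pool.Agent.Lib.MP_b169d2_gt
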