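import Pool.Agent.Lib.MP_b169d2_gt.A

/-! Almost invariant weights from averaging functionals of small energy. -/

namespace Pool.Agent.Lib.MP_b169d2_gt.SS

open scoped ENNReal Classical

variable {G Z : Type} [Group G] (S : SS G Z)

omit [Group G] in
lemma tsum_split [Fintype Z] (f : List Z × G → ℝ≥0∞) :
    ∑' e, f e ≤ ∑' h, f ([], h) + ∑ z, ∑' e, f (pre [z] e) := by
  refine (ENNReal.tsum_le_tsum_comp_of_surjective (f := Sum.elim (fun h : G => (([] : List Z), h))
    fun p : Z × (List Z × G) => pre [p.1] p.2) ?_ f).trans_eq ?_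
  · rintro ⟨_ | ⟨z, w⟩, h⟩
    · exact ⟨.inl h, rfl⟩
    · exact ⟨.inr (z, w, h), rfl⟩
  · rw [Summable.tsum_sum ENNReal.summable ENNReal.summable, ENNReal.tsum_prod', tsum_fintype (β := Z)]
    rfl

/-- The recursively defined weight. -/
noncomputable def wt (Av : Z → (G → ℝ) →ₗ[ℝ] ℝ) : ℕ → List Z × G → ℝ
  | _, ([], h) => if h = 1 then 1 else 0
  | 0, (_ :: _, _) => 0
  | k + 1, (z :: w, h) => Av z fun a => wt Av k (S.act a (w, h))

/-- The weight with the right amount of fuel. -/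
noncomputable def W (Av : Z → (G → ℝ) →ₗ[ℝ] ℝ) (e : List Z × G) : ℝ := S.wt Av e.1.length e

lemma W_nil (Av : Z → (G → ℝ) →ₗ[ℝ] ℝ) (h : G) : S.W Av ([], h) = if h = 1 then 1 else 0 := by
  simp [W, wt]

lemma W_pre (Av : Z → (G → ℝ) →ₗ[ℝ] ℝ) (z : Z) (e : List Z × G) :
    S.W Av (pre [z] e) = Av z fun a => S.W Av (S.act a e) := by
  simp [W, wt, pre, act]

lemma W_act (Av : Z → (G → ℝ) →ₗ[ℝ] ℝ) (g : G) (z : Z) (e : List Z × G) :
    S.W Av (S.act g (pre [z] e)) = Av (S.im g z) fun a => S.W Av (S.act (a * S.se g z) e) := by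
  rw [act_pre]
  simp only [imL_cons, imL_nil, seL_cons, seL_nil, W_pre, act_mul]

theorem good_of_av [Fintype Z] (Av : Z → (G → ℝ) →ₗ[ℝ] ℝ) {N : Set G} {N' M : Finset G}
    (hN : Subgroup.closure N = ⊤) (h1 : (1 : G) ∈ N') (hNs : ∀ g ∈ N, ∀ z, S.se g z ∈ N')
    (hM : ∀ g, g ∈ M ↔ ∃ a ∈ N', ∃ b ∈ N', a * b = g) (hMi : ∀ g ∈ M, g⁻¹ ∈ M)
    (hMs : ∀ g ∈ M, ∀ z, S.se g z ∈ N') (a1 : ∀ z, Av z (fun _ => 1) = 1)
    (a2 : ∀ z f b, (∀ a ∈ N', |f a| ≤ b) → |Av z f| ≤ b) (c : G → Z → ℝ)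
    (a3 : ∀ n ∈ N', ∀ z f b, (∀ a ∈ M, |f a| ≤ b) →
      |Av (S.im n z) (fun a => f (a * S.se n z)) - Av z f| ≤ c n z * b)
    (hc : ∀ n ∈ N', 8 * M.card * ∑ z, c n z ^ 2 ≤ 1) : S.Good (S.W Av) M := by
  have sub : ∀ a ∈ N', a ∈ M := fun a ha => (hM a).2 ⟨a, ha, 1, h1, mul_one a⟩
  have ac : ∀ z (f : G → ℝ) (x : ℝ), Av z (fun a => f a - x) = Av z f - x := fun z f x => by
    rw [show (fun a => f a - x) = f - x • fun _ => (1 : ℝ) by ext; simp, map_sub, map_smul, a1]
    simp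
  have sm : ∀ w, ∀ b ∈ M, (∀ h, h ∉ M → S.W Av (S.act b (w, h)) = 0) ∧
      ∑ h ∈ M, S.W Av (S.act b (w, h)) = 1 := by
    intro w
    induction w with
    | nil =>
      intro b hb
      simp only [act, imL_nil, seL_nil, W_nil, mul_eq_one_iff_inv_eq]
      exact ⟨fun h hh => if_neg fun e : b⁻¹ = h => hh (e ▸ hMi b hb), by simp [hMi b hb]⟩
    | cons z w ih =>
      intro b hb
      have e : ∀ h, S.W Av (S.act b (z :: w, h)) = _ := fun h => S.W_act Av b z (w, h)
      have m : ∀ a ∈ N', a * S.se b z ∈ M := fun a ha => (hM _).2 ⟨a, ha, _, hMs b hb z, rfl⟩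
      simp only [e]
      refine ⟨fun h hh => abs_nonpos_iff.1 (a2 _ _ 0 fun a ha => ?_), ?_⟩
      · rw [(ih _ (m a ha)).1 h hh, abs_zero]
      · rw [← map_sum, ← sub_eq_zero, ← ac]
        refine abs_nonpos_iff.1 (a2 _ _ 0 fun a ha => ?_)
        rw [Finset.sum_apply, (ih _ (m a ha)).2, sub_self, abs_zero]
  set F := S.W Av with hF
  have key : ∀ (e : List Z × G) (x y t : ℝ),
      (∀ b, (∀ a ∈ M, |F (S.act a e) - F e| ≤ b) → |x - y| ≤ t * b) →
      dq x y ≤ ENNReal.ofReal (t ^ 2) * ∑ a ∈ M, dq (F (S.act a e)) (F e) := fun e x y t h => by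
    have := h √(∑ a ∈ M, (F (S.act a e) - F e) ^ 2) fun a ha => Real.abs_le_sqrt
      (Finset.single_le_sum (f := fun a => (F (S.act a e) - F e) ^ 2) (fun _ _ => sq_nonneg _) ha)
    unfold dq
    rw [← ENNReal.ofReal_sum_of_nonneg fun _ _ => sq_nonneg _, ← ENNReal.ofReal_mul (sq_nonneg _)]
    refine ENNReal.ofReal_le_ofReal ?_
    rw [← sq_abs, ← Real.sq_sqrt (Finset.sum_nonneg fun a _ => sq_nonneg (F (S.act a e) - F e)),
      ← mul_pow]
    exact pow_le_pow_left₀ (abs_nonneg _) this 2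
  have base : ∀ g, ∑' h, dq (F (S.act g ([], h))) (F ([], h)) ≠ ⊤ := fun g => by
    rw [tsum_eq_sum (s := {1, g⁻¹}) fun h hh => ?_]
    · exact ENNReal.sum_ne_top.2 fun _ _ => dq_ne_top _ _
    · simp only [Finset.mem_insert, Finset.mem_singleton, not_or] at hh
      simp [hF, act, W_nil, mul_eq_one_iff_inv_eq, hh.1, Ne.symm hh.2]
  let ψ : ℕ → G → ℝ≥0∞ := fun K g =>
    ∑' e, if e.1.length < K then dq (F (S.act g e)) (F e) else 0
  let C := ∑ n ∈ N', ∑' h, dq (F (S.act n ([], h))) (F ([], h))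
  have hC : C ≠ ⊤ := ENNReal.sum_ne_top.2 fun n _ => base n
  have mul : ∀ K g g', ψ K (g * g') ≤ 2 * ψ K g + 2 * ψ K g' := fun K g g' => by
    simp only [ψ]
    rw [← (S.actE g').tsum_eq fun e => if e.1.length < K then dq (F (S.act g e)) (F e) else 0,
      ← ENNReal.tsum_mul_left, ← ENNReal.tsum_mul_left, ← ENNReal.tsum_add]
    refine ENNReal.tsum_le_tsum fun e => ?_
    rw [show (S.actE g' e).1.length = e.1.length from S.length_imL _ _, act_mul]
    split_ifs
    · exact dq_tri _ _ _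
    · simp
  have bd : ∀ K, ∑ g ∈ M, ψ K g ≤ 8 * M.card * C := by
    intro K
    induction K with
    | zero => simp [ψ]
    | succ K ih =>
      have s1 : ∀ n ∈ N', ψ (K + 1) n ≤ 2 * C := fun n hn => by
        refine (tsum_split _).trans ?_
        rw [two_mul]
        refine add_le_add ?_ ?_
        · simp only [List.length_nil, Nat.zero_lt_succ, if_true]
          exact Finset.single_le_sum (f := fun n => ∑' h, dq (F (S.act n ([], h))) (F ([], h)))
            (fun _ _ => zero_le) hn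
        refine (Finset.sum_le_sum (g := fun z => ENNReal.ofReal (c n z ^ 2) * (8 * M.card * C))
          fun z _ => le_trans ?_ (mul_le_mul_right ih _)).trans ?_
        · rw [← Summable.tsum_finsetSum fun _ _ => ENNReal.summable, ← ENNReal.tsum_mul_left]
          refine ENNReal.tsum_le_tsum fun e => ?_
          rw [show (pre [z] e).1.length = e.1.length + 1 by simp [pre]]
          simp only [Nat.add_lt_add_iff_right]
          split_ifs
          · refine key e _ _ _ fun b hb => ?_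
            have := a3 n hn z (fun a => F (S.act a e) - F e) b hb
            rwa [ac, ac, sub_sub_sub_cancel_right, ← W_act, ← W_pre] at this
          · exact zero_le
        · rw [← Finset.sum_mul, ← ENNReal.ofReal_sum_of_nonneg fun _ _ => sq_nonneg _, ← mul_assoc]
          refine mul_le_of_le_one_left zero_le ?_
          rw [← ENNReal.ofReal_ofNat, ← ENNReal.ofReal_natCast, ← ENNReal.ofReal_mul (by norm_num),
            ← ENNReal.ofReal_mul (by positivity), mul_comm]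
          exact ENNReal.ofReal_le_one.2 (hc n hn)
      refine (Finset.sum_le_card_nsmul _ _ (8 * C) fun g hg => ?_).trans_eq (by simp; ring)
      obtain ⟨a, ha, b, hb, rfl⟩ := (hM g).1 hg
      refine (mul _ _ _).trans ((add_le_add (mul_le_mul_right (s1 a ha) _)
        (mul_le_mul_right (s1 b hb) _)).trans_eq (by ring))
  have inv : ∀ g ∈ M, ∑' e, dq (F (S.act g e)) (F e) ≠ ⊤ := fun g hg => by
    refine ne_top_of_le_ne_top (b := 8 * M.card * C) (by finiteness) ?_
    rw [ENNReal.tsum_eq_iSup_sum]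
    refine iSup_le fun s => le_trans ?_ ((Finset.single_le_sum (fun _ _ => zero_le) hg).trans
      (bd (s.sup (fun e => e.1.length) + 1)))
    refine le_trans (Finset.sum_le_sum fun e he => ?_) (ENNReal.sum_le_tsum s)
    rw [if_pos (Nat.lt_succ_of_le (Finset.le_sup (f := fun e : List Z × G => e.1.length) he))]
  have shift : ∀ z, ∑' e, dq (F (pre [z] e)) (F e) ≠ ⊤ := fun z => by
    refine ne_top_of_le_ne_top (ENNReal.sum_ne_top.2 inv) ?_
    rw [← Summable.tsum_finsetSum fun _ _ => ENNReal.summable]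
    refine ENNReal.tsum_le_tsum fun e => (key e _ _ 1 fun b hb => ?_).trans_eq (by simp)
    rw [one_mul, hF, W_pre, ← ac]
    exact a2 _ _ _ fun a ha => hb a (sub a ha)
  refine ⟨fun v h hh => by simpa using (sm v 1 (sub 1 h1)).1 h hh,
    fun v => by simpa using (sm v 1 (sub 1 h1)).2, shift, inv_closure hN fun g hg => ?_⟩
  refine ne_top_of_le_ne_top (ENNReal.add_ne_top.2 ⟨base g, ENNReal.sum_ne_top.2 fun z _ => ?_⟩)
    (tsum_split _)
  simp only [act_pre]
  refine fin_tri (g := fun e => F (S.act (S.se g z) e)) ?_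
    (fin_tri (inv _ (sub _ (hNs g hg z))) (fin_symm (shift z)))
  exact ((S.actE (S.se g z)).tsum_eq fun e => dq (F (pre [S.im g z] e)) (F e)).trans_ne (shift _)

end Pool.Agent.Lib.MP_b169d2_gt.SS
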