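import Pool.Agent.Lib.MP_b169d2_gt.B

/-! Finitary and directed elements, and the averaging functionals they define. -/

namespace Pool.Agent.Lib.MP_b169d2_gt.SS

open scoped Classical
open List

variable {G Y : Type} [Group G] (S : SS G Y)

/-- Elements with trivial sections. -/
def F0 : Set G := {g | ∀ y, S.se g y = 1}

/-- Elements directed along the constant ray `y y y ...`. -/
def P (y : Y) : Set G := {g | S.se g y = g ∧ ∀ x, x ≠ y → S.se g x ∈ S.F0}

/-- Finitary or directed elements. -/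
def Nu : Set G := {g | g ∈ S.F0 ∨ ∃ y, g ∈ S.P y}

variable {S}

lemma im_inv (g : G) (y : Y) : S.im g (S.im g⁻¹ y) = y := by
  rw [← S.im_mul, mul_inv_cancel, S.im_one]

lemma F0_one : 1 ∈ S.F0 := S.se_one

lemma F0_mul {g h : G} (hg : g ∈ S.F0) (hh : h ∈ S.F0) : g * h ∈ S.F0 := fun y => by
  rw [S.se_mul, hg, hh, one_mul]

lemma F0_inv {g : G} (hg : g ∈ S.F0) : g⁻¹ ∈ S.F0 := fun y => by
  rw [← im_inv (S := S) g y, se_inv, hg, inv_one]

lemma P_one (y : Y) : 1 ∈ S.P y := ⟨S.se_one y, fun x _ => by rw [S.se_one]; exact F0_one⟩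

lemma P_mul {g h : G} {y : Y} (hg : g ∈ S.P (S.im h y)) (hh : h ∈ S.P y) : g * h ∈ S.P y :=
  ⟨by rw [S.se_mul, hg.1, hh.1], fun x hx => by
    rw [S.se_mul]; exact F0_mul (hg.2 _ ((S.im_inj h).ne hx)) (hh.2 x hx)⟩

lemma P_inv {g : G} {y : Y} (hg : g ∈ S.P y) : g⁻¹ ∈ S.P (S.im g y) :=
  ⟨by rw [se_inv, hg.1], fun x hx => by
    rw [← im_inv (S := S) g x] at hx ⊢
    rw [se_inv]
    exact F0_inv (hg.2 _ fun e => hx (by rw [e]))⟩

lemma Nu_inv {g : G} (hg : g ∈ S.Nu) : g⁻¹ ∈ S.Nu :=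
  hg.imp F0_inv fun ⟨_, h⟩ => ⟨_, P_inv h⟩

lemma Nu_seL {g : G} (hg : g ∈ S.Nu) (u : List Y) : S.seL g u ∈ S.Nu := by
  induction u generalizing g with
  | nil => exact hg
  | cons x u ih =>
    refine ih ?_
    rcases hg with h | ⟨y, h⟩
    · rw [h]; exact .inl F0_one
    · by_cases e : x = y
      · rw [e, h.1]; exact .inr ⟨y, h⟩
      · exact .inl (h.2 x e)

lemma dead {g : G} (hg : g ∈ S.Nu) {x x' : Y} {u : List Y} (h : S.seL g (x :: x' :: u) ≠ 1) :
    g ∈ S.P x := by
  rcases hg with hg | ⟨y, hg⟩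
  · simp [hg x, S.se_one] at h
  · by_contra e
    simp [hg.2 x (fun e' => e (e' ▸ hg)) x'] at h

lemma contract {a b : G} (ha : a ∈ S.Nu) (hb : b ∈ S.Nu) (x x' : Y) (u : List Y) :
    S.seL (a * b) (x :: x' :: u) ∈ S.Nu := by
  by_cases h1 : S.seL b (x :: x' :: u) = 1
  · rw [seL_mul, h1, mul_one]; exact Nu_seL ha _
  by_cases h2 : S.seL a (S.imL b (x :: x' :: u)) = 1
  · rw [seL_mul, h2, one_mul]; exact Nu_seL hb _
  exact Nu_seL (.inr ⟨x, P_mul (dead ha h2) (dead hb h1)⟩) _

lemma rep {g : G} {y : Y} (hg : g ∈ S.P y) (i : ℕ) :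
    S.imL g (replicate i y) = replicate i (S.im g y) ∧ S.seL g (replicate i y) = g := by
  induction i <;> simp_all [replicate_succ, hg.1]

lemma alive [Nonempty Y] {g : G} (hg : g ∈ S.Nu) {v : List Y} (h : S.seL g v ≠ 1) :
    ∃ y x, v = (replicate (v.length - 1) y ++ [x]).take v.length := by
  induction v with
  | nil => simp
  | cons a l ih =>
    obtain _ | ⟨b, l⟩ := l
    · exact ⟨a, a, by simp⟩
    have h1 := dead hg h
    rw [seL_cons, h1.1] at h
    obtain ⟨y, x, e⟩ := ih h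
    rw [take_of_length_le (by simp)] at e
    refine ⟨a, x, ?_⟩
    rw [take_of_length_le (by simp)]
    obtain _ | ⟨c, l⟩ := l
    · obtain rfl : b = x := by simpa using e
      rfl
    · have h2 := dead hg h
      obtain rfl : b = a := by
        by_contra e
        have := h1.2 b e
        rw [h2.1] at this
        simp [this b, S.se_one] at h
      obtain rfl : b = y := by simpa [replicate_succ] using congrArg head? e
      rw [e]; simp [replicate_succ]

variable (hsep : ∀ U : Set G, (∀ g ∈ U, ∀ y, S.im g y = y ∧ S.se g y ∈ U) → ∀ g ∈ U, g = 1)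
include hsep

lemma ext_of {g h : G} (h1 : S.im g = S.im h)
    (h2 : ∀ y, S.se g y = S.se h y ∨ (S.se g y = g ∧ S.se h y = h)) : g = h := by
  rw [← inv_mul_eq_one]
  refine hsep {1, g⁻¹ * h} ?_ _ (by simp)
  rintro _ (rfl | rfl) y
  · simp [S.im_one, S.se_one]
  · rw [S.im_mul, S.se_mul, ← h1, se_inv, ← S.im_mul, inv_mul_cancel, S.im_one]
    rcases h2 y with e | e <;> simp [e]

lemma F0_fin [Finite Y] : S.F0.Finite :=
  .of_finite_image (f := S.im) (Set.toFinite _) fun _ hg _ hh e =>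
    ext_of hsep e fun y => .inl ((hg y).trans (hh y).symm)

lemma P_fin [Finite Y] (y : Y) : (S.P y).Finite := by
  refine .of_finite_image (f := fun g => (S.im g, fun x => if x = y then 1 else S.se g x))
    ((Set.finite_univ.prod (Set.Finite.pi' fun _ => F0_fin hsep)).subset ?_) fun g hg h hh e => ?_
  · rintro _ ⟨g, hg, rfl⟩
    refine ⟨trivial, fun x => ?_⟩
    simp only
    split_ifs with e
    exacts [F0_one, hg.2 x e]
  · refine ext_of hsep (congrArg Prod.fst e) fun x => ?_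
    by_cases e' : x = y
    · exact .inr (e' ▸ ⟨hg.1, hh.1⟩)
    · exact .inl (by simpa [e'] using congrFun (congrArg Prod.snd e) x)

lemma Nu_fin [Finite Y] : S.Nu.Finite :=
  ((F0_fin hsep).union (Set.finite_iUnion (P_fin hsep))).subset fun g hg => by
    simpa [Nu] using hg

omit hsep

/-- Special words. -/
def Sp (w : List Y) : Prop := ∃ i y x, w = replicate (i + 1) y ++ [x]

lemma not_Sp {y x x' : Y} (h : x ≠ y) (a : ℕ) (l : List Y) :
    ¬ Sp (replicate (a + 1) y ++ x :: x' :: l) := by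
  rintro ⟨i, y', z, e⟩
  obtain rfl : y = y' := by simpa [replicate_succ] using congrArg head? e
  generalize a + 1 = a, i + 1 = i at e
  induction a generalizing i with
  | zero => cases i <;> simp_all [replicate_succ]
  | succ a ih =>
    cases i with
    | zero => simp [replicate_succ] at e
    | succ i => exact ih i (by simpa [replicate_succ] using e)

/-- The averaging functional of a word. -/
noncomputable def q (Pf : Y → Finset G) : List Y → (G → ℝ) →ₗ[ℝ] ℝ
  | [] => LinearMap.proj 1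
  | y :: l => if Sp (y :: l) then
      ((Pf y).card : ℝ)⁻¹ • ∑ t ∈ Pf y, LinearMap.proj (S.seL t (y :: l)) else LinearMap.proj 1

variable {Pf : Y → Finset G} (hP : ∀ y g, g ∈ Pf y ↔ g ∈ S.P y)

lemma q_not {w : List Y} (h : ¬ Sp w) (f : G → ℝ) : S.q Pf w f = f 1 := by
  cases w <;> simp [q, h]

lemma q_sp (i : ℕ) (y x : Y) (f : G → ℝ) : S.q Pf (replicate (i + 1) y ++ [x]) f =
    ((Pf y).card : ℝ)⁻¹ * ∑ t ∈ Pf y, f (S.seL t (replicate (i + 1) y ++ [x])) := by
  have : Sp (y :: (replicate i y ++ [x])) := ⟨i, y, x, rfl⟩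
  simp only [replicate_succ, cons_append, q, if_pos this]
  simp

include hP

lemma card_pos (y : Y) : (0 : ℝ) < (Pf y).card :=
  Nat.cast_pos.2 (Finset.card_pos.2 ⟨1, (hP _ _).2 (P_one y)⟩)

lemma q_one (w : List Y) : S.q Pf w (fun _ => 1) = 1 := by
  by_cases h : Sp w
  · obtain ⟨i, y, x, rfl⟩ := h
    simp [q_sp, (card_pos hP y).ne']
  · rw [q_not h]

lemma q_le (w : List Y) (f : G → ℝ) (b : ℝ) (hb : ∀ a ∈ S.Nu, |f a| ≤ b) : |S.q Pf w f| ≤ b := by
  by_cases h : Sp w
  · obtain ⟨i, y, x, rfl⟩ := h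
    have := card_pos hP y
    rw [q_sp, abs_mul, abs_of_pos (inv_pos.2 this), inv_mul_le_iff₀ this]
    refine (Finset.abs_sum_le_sum_abs _ _).trans ((Finset.sum_le_card_nsmul _ _ b fun t ht =>
      hb _ (Nu_seL (.inr ⟨y, (hP _ _).1 ht⟩) _)).trans_eq (by simp))
  · rw [q_not h]; exact hb _ (.inl F0_one)

variable (S Pf) in
/-- Exact equivariance along an edge. -/
def Ok (s : G) (w : List Y) : Prop :=
  ∀ f : G → ℝ, S.q Pf (S.imL s w) (fun a => f (a * S.seL s w)) = S.q Pf w f

lemma ok_sp {s : G} {y : Y} (hs : s ∈ S.P y) (i : ℕ) (x : Y) :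
    S.Ok Pf s (replicate (i + 1) y ++ [x]) := fun f => by
  have e : S.imL s (replicate (i + 1) y ++ [x]) = replicate (i + 1) (S.im s y) ++ [S.im s x] := by
    rw [imL_append, (rep hs _).1, (rep hs _).2]; rfl
  have b : ∀ t, t ∈ Pf (S.im s y) ↔ Equiv.mulRight s t ∈ Pf y := fun t => by
    rw [hP, hP]
    refine ⟨fun h => P_mul h hs, fun h => ?_⟩
    have := P_mul (y := S.im s y) (g := t * s) (h := s⁻¹)
      (by rwa [← S.im_mul, inv_mul_cancel, S.im_one]) (P_inv hs)
    simpa using this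
  rw [e, q_sp, q_sp, ← e, Finset.card_equiv _ b]
  congr 1
  exact Finset.sum_equiv _ b fun t _ => by simp [seL_mul]

omit hP

lemma ok_one (w : List Y) : S.Ok Pf 1 w := fun f => by simp

lemma ok_not {s : G} (hs : s ∈ S.Nu) {w : List Y} (hw : 2 ≤ w.length) (h1 : ¬ Sp w)
    (h2 : ¬ Sp (S.imL s w)) : S.Ok Pf s w := fun f => by
  have : Nonempty Y := by
    obtain _ | ⟨a, l⟩ := w
    exacts [by simp at hw, ⟨a⟩]
  have : S.seL s w = 1 := by
    by_contra e
    obtain ⟨y, x, e⟩ := alive hs e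
    rw [take_of_length_le (by simp; omega)] at e
    exact h1 ⟨w.length - 2, y, x, by rwa [show w.length - 2 + 1 = w.length - 1 by omega]⟩
  simp [q_not h1, q_not h2, this]

include hP

lemma few {n : G} (hn : n ∈ S.Nu) (u : List Y) : ∃ t, ∀ i, i + 2 ≤ u.length → i ≠ t → i ≠ t + 1 →
    S.Ok Pf (S.seL n (u.take i)) (u.drop i) := by
  rcases hn with hn | ⟨y, hn⟩
  · refine ⟨0, fun i h1 h2 _ => ?_⟩
    obtain _ | ⟨a, u⟩ := u
    · simp at h1
    obtain _ | i := i
    · simp at h2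
    · simpa [hn a] using ok_one _
  obtain ⟨t, l, rfl, hl⟩ : ∃ t l, u = replicate t y ++ l ∧ l.head? ≠ some y := by
    induction u with
    | nil => exact ⟨0, [], rfl, by simp⟩
    | cons a u ih =>
      obtain ⟨t, l, rfl, hl⟩ := ih
      by_cases e : a = y
      · exact ⟨t + 1, l, by simp [e, replicate_succ], hl⟩
      · exact ⟨0, _, rfl, by simpa using e⟩
  refine ⟨t, fun i h1 h2 h3 => ?_⟩
  simp only [length_append, length_replicate] at h1
  rcases lt_or_gt_of_ne h2 with h | h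
  · obtain ⟨a, rfl⟩ := Nat.exists_eq_add_of_lt h
    rw [add_assoc, replicate_add, append_assoc, take_left' (by simp), drop_left' (by simp),
      (rep hn _).2]
    obtain _ | ⟨x, _ | ⟨x', l⟩⟩ := l
    · obtain _ | a := a
      · simp at h1
      · rw [append_nil, replicate_succ']; exact ok_sp hP hn _ _
    · exact ok_sp hP hn _ _
    · have hx : x ≠ y := by simpa using hl
      refine ok_not (.inr ⟨y, hn⟩) (by simp; omega) (not_Sp hx _ _) ?_
      rw [imL_append, (rep hn _).1, (rep hn _).2]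
      exact not_Sp ((S.im_inj n).ne hx) _ _
  · obtain ⟨a, rfl⟩ : ∃ a, i = t + (a + 2) := ⟨i - t - 2, by omega⟩
    obtain _ | ⟨x, _ | ⟨x', l⟩⟩ := l
    · simp at h1; omega
    · simp at h1
    · have hx : x ≠ y := by simpa using hl
      have : S.seL n ((replicate t y ++ x :: x' :: l).take (t + (a + 2))) = 1 := by
        rw [take_append, seL_append, take_of_length_le (by simp), (rep hn _).2]
        simp [hn.2 x hx x']
      rw [this]; exact ok_one _

end Pool.Agent.Lib.MP_b169d2_gt.SS
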