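import Pool.Agent.Lib.MP_b169d2_gt.C

/-! Almost invariant weights exist when all sections are finitary or directed. -/

namespace Pool.Agent.Lib.MP_b169d2_gt.SS

open scoped Classical
open List

variable {G Y : Type} [Group G] {S : SS G Y}

lemma drop_imL (g : G) (u : List Y) {i : ℕ} (hi : i ≤ u.length) :
    (S.imL g u).drop i = S.imL (S.seL g (u.take i)) (u.drop i) ∧
      S.seL g u = S.seL (S.seL g (u.take i)) (u.drop i) := by
  constructor
  · conv_lhs => rw [← take_append_drop i u, imL_append]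
    exact drop_left' (by simp [hi])
  · rw [← seL_append, take_append_drop]

lemma bad_card [Fintype Y] [Nonempty Y] {Pf : Y → Finset G} {n : G} (hn : n ∈ S.Nu) (r : ℕ) :
    (Finset.univ.filter fun z : List.Vector Y (r + 1) =>
      ¬ ∀ i < r, S.Ok Pf (S.seL n (z.1.take i)) (z.1.drop i)).card ≤
      r * (Fintype.card Y ^ 4 * 2) := by
  let c : Fin r × (Fin 4 → Y) × Bool → List Y := fun p =>
    (replicate (p.1 - 1) (p.2.1 0) ++ [p.2.1 1]).take p.1 ++
      S.imL (if p.2.2 then 1 else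
        (S.seL n ((replicate (p.1 - 1) (p.2.1 0) ++ [p.2.1 1]).take p.1))⁻¹)
        (replicate (r - p.1) (p.2.1 2) ++ [p.2.1 3])
  refine (Finset.card_le_card_of_injOn (t := Finset.univ.image c) Subtype.val (fun z hz => ?_)
    Subtype.val_injective.injOn).trans (Finset.card_image_le.trans_eq (by simp))
  have hz := (Finset.mem_filter.1 hz).2
  simp only [not_forall] at hz
  obtain ⟨i, hi, h⟩ := hz
  have z2 := z.2
  have l1 : (z.1.take i).length = i := by simp; omega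
  have l2 : (z.1.drop i).length = r + 1 - i := by simp [z2]
  obtain ⟨y, x, e⟩ := alive hn (v := z.1.take i) fun e => h (e ▸ ok_one _)
  rw [l1] at e
  simp only [Finset.coe_image, Finset.coe_univ, Set.image_univ, Set.mem_range]
  by_cases h1 : Sp (z.1.drop i)
  · obtain ⟨j, y', x', e'⟩ := h1
    have : j + 1 = r - i := by rw [e'] at l2; simp at l2; omega
    refine ⟨(⟨i, hi⟩, ![y, x, y', x'], true), ?_⟩
    simp only [c, if_true, imL_one]
    simp [← e, ← this, ← e']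
  · obtain ⟨j, y', x', e'⟩ : Sp (S.imL (S.seL n (z.1.take i)) (z.1.drop i)) := by
      by_contra h2
      exact h (ok_not (Nu_seL hn _) (by omega) h1 h2)
    have : j + 1 = r - i := by
      rw [← S.length_imL (S.seL n (z.1.take i)), e'] at l2; simp at l2; omega
    refine ⟨(⟨i, hi⟩, ![y, x, y', x'], false), ?_⟩
    simp [c, ← e, ← this, ← e', ← imL_mul]

theorem good_of_Nu [Fintype Y] [Nonempty Y]
    (hsep : ∀ U : Set G, (∀ g ∈ U, ∀ y, S.im g y = y ∧ S.se g y ∈ U) → ∀ g ∈ U, g = 1)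
    {N : Set G} (hN : Subgroup.closure N = ⊤) (hNs : ∀ g ∈ N, ∀ y, S.se g y ∈ S.Nu) :
    ∃ F M, S.Good F M := by
  obtain ⟨N', hN'⟩ : ∃ N' : Finset G, ∀ g, g ∈ N' ↔ g ∈ S.Nu :=
    ⟨(Nu_fin hsep).toFinset, by simp⟩
  obtain ⟨Pf, hP⟩ : ∃ Pf : Y → Finset G, ∀ y g, g ∈ Pf y ↔ g ∈ S.P y :=
    ⟨fun y => (P_fin hsep y).toFinset, by simp⟩
  obtain ⟨M, hM⟩ : ∃ M : Finset G, ∀ g, g ∈ M ↔ ∃ a ∈ N', ∃ b ∈ N', a * b = g :=
    ⟨Finset.image₂ (· * ·) N' N', fun g => Finset.mem_image₂⟩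
  obtain ⟨r, hr⟩ : ∃ r, r = 256 * M.card * Fintype.card Y ^ 4 + 1 := ⟨_, rfl⟩
  have r0 : (0 : ℝ) < r := by rw [hr]; positivity
  refine (Good.ofPow (T := r + 1) r.succ_pos ((S.pow (r + 1)).good_of_av
    (fun z => (r : ℝ)⁻¹ • ∑ i ∈ Finset.range r, S.q Pf (z.1.drop i)) (N' := N') hN
    ((hN' _).2 (.inl F0_one)) ?_ hM ?_ ?_ (fun z => ?_) (fun z f b hb => ?_)
    (fun n z => if ∀ i < r, S.Ok Pf (S.seL n (z.1.take i)) (z.1.drop i) then 0 else 4 / r)
    (fun n hn z f b hb => ?_) fun n hn => ?_)).imp fun F h => ⟨M, h⟩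
  · rintro g hg ⟨_ | ⟨y, l⟩, h⟩
    · simp at h
    · exact (hN' _).2 (Nu_seL (hNs g hg y) l)
  · intro g hg
    obtain ⟨a, ha, b, hb, rfl⟩ := (hM g).1 hg
    rw [hN'] at ha hb
    exact (hM _).2 ⟨_, (hN' _).2 (Nu_inv hb), _, (hN' _).2 (Nu_inv ha), (mul_inv_rev _ _).symm⟩
  · rintro g hg ⟨_ | ⟨y, _ | ⟨y', l⟩⟩, h⟩
    · simp at h
    · simp [hr] at h
    · obtain ⟨a, ha, b, hb, rfl⟩ := (hM g).1 hg
      exact (hN' _).2 (contract ((hN' _).1 ha) ((hN' _).1 hb) _ _ _)
  · simp [q_one hP, r0.ne']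
  · rw [LinearMap.smul_apply, LinearMap.sum_apply, smul_eq_mul, abs_mul, abs_of_pos (inv_pos.2 r0),
      inv_mul_le_iff₀ r0]
    refine (Finset.abs_sum_le_sum_abs _ _).trans ((Finset.sum_le_card_nsmul _ _ b fun i _ =>
      q_le hP _ _ _ fun a ha => hb a ((hN' _).2 ha)).trans_eq (by simp))
  · have hn' := (hN' _).1 hn
    have o : (1 : G) ∈ N' := (hN' _).2 (.inl F0_one)
    have b0 : 0 ≤ b := (abs_nonneg _).trans (hb 1 ((hM _).2 ⟨1, o, 1, o, one_mul 1⟩))
    have z2 := z.2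
    simp only [LinearMap.smul_apply, LinearMap.sum_apply, smul_eq_mul, pow]
    rw [← mul_sub, ← Finset.sum_sub_distrib, abs_mul, abs_of_pos (inv_pos.2 r0), inv_mul_le_iff₀ r0]
    have z0 : ∀ i < r, S.Ok Pf (S.seL n (z.1.take i)) (z.1.drop i) →
        S.q Pf ((S.imL n z.1).drop i) (fun a => f (a * S.seL n z.1)) - S.q Pf (z.1.drop i) f = 0 :=
      fun i hi h => by
        rw [(drop_imL n z.1 (i := i) (by omega)).1, (drop_imL n z.1 (i := i) (by omega)).2, h f,
          sub_self]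
    split_ifs with h
    · rw [Finset.sum_eq_zero fun i hi => z0 i (Finset.mem_range.1 hi) (h i (Finset.mem_range.1 hi))]
      simp
    obtain ⟨t, ht⟩ := few hP hn' z.1
    rw [← Finset.sum_subset (s₁ := Finset.range r ∩ {t, t + 1}) Finset.inter_subset_left
      fun i hi h => ?_]
    · refine (Finset.abs_sum_le_sum_abs _ _).trans ((Finset.sum_le_card_nsmul _ _ (b + b)
        fun i _ => (abs_sub _ _).trans (add_le_add (q_le hP _ _ _ fun a ha => hb _ ((hM _).2
          ⟨a, (hN' _).2 ha, _, (hN' _).2 (Nu_seL hn' _), rfl⟩)) (q_le hP _ _ _ fun a ha => hb _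
          ((hM _).2 ⟨a, (hN' _).2 ha, 1, o, mul_one a⟩)))).trans ?_)
      have : ((Finset.range r ∩ {t, t + 1}).card : ℝ) ≤ 2 := by
        exact_mod_cast (Finset.card_le_card Finset.inter_subset_right).trans Finset.card_le_two
      rw [nsmul_eq_mul, ← mul_assoc, mul_div_cancel₀ _ r0.ne']
      nlinarith
    · simp only [Finset.mem_inter, hi, true_and, Finset.mem_insert, Finset.mem_singleton,
        not_or] at h
      rw [Finset.mem_range] at hi
      exact z0 i hi (ht i (by omega) h.1 h.2)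
  · have : (_ : ℝ) ≤ _ := Nat.cast_le.2 (bad_card (Pf := Pf) ((hN' _).1 hn) r)
    simp only [ite_pow, Finset.sum_ite, Finset.sum_const, nsmul_eq_mul, ne_eq, OfNat.ofNat_ne_zero,
      not_false_eq_true, zero_pow, mul_zero, zero_add]
    refine (mul_le_mul_of_nonneg_left (mul_le_mul_of_nonneg_right this (by positivity))
      (by positivity)).trans ?_
    have e : (256 * M.card * Fintype.card Y ^ 4 : ℝ) ≤ r := by rw [hr]; push_cast; linarith
    push_cast
    field_simp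
    linarith

end Pool.Agent.Lib.MP_b169d2_gt.SS
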