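import Mathlib

/-! Bounded automata, Roever-Nekrashevych groups, the Haagerup property: definitions. -/

namespace Pool.Agent.Lib.MP_b169d2_gt

/-- `h` is the section of `g` at the finite word `v`. -/
def IsSection {X : Type} (g : Equiv.Perm (Stream' X)) (v : List X) (h : Equiv.Perm (Stream' X)) :
    Prop :=
  ∃ w : List X, w.length = v.length ∧ ∀ z, g (v ++ₛ z) = w ++ₛ h z

/-- `N` is the set of states of a finite invertible automaton of bounded activity. -/
structure IsBoundedAutomaton {X : Type} (N : Set (Equiv.Perm (Stream' X))) : Prop where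
  finite : N.Finite
  selfSimilar : ∀ g ∈ N, ∀ x : X, ∃ h ∈ N, IsSection g [x] h
  bounded : ∃ B : ℕ, ∀ g ∈ N, ∀ k : ℕ, {v : List X | v.length = k ∧ ¬ IsSection g v 1}.ncard ≤ B

/-- The Roever-Nekrashevych group of `G`: generated by the permutations of the space of infinite
words which, on each cone of some level, replace the prefix and apply an element of `G`. -/
def roverNekrashevych {X : Type} (G : Subgroup (Equiv.Perm (Stream' X))) :
    Subgroup (Equiv.Perm (Stream' X)) :=
  Subgroup.closure {γ | ∃ k : ℕ, ∀ v : List X, v.length = k →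
    ∃ w : List X, ∃ h ∈ G, ∀ z, γ (v ++ₛ z) = w ++ₛ h z}

/-- `Γ` has a metrically proper isometric action on a real Hilbert space. -/
def HasHaagerupProperty (Γ : Type) [Group Γ] : Prop :=
  ∃ (H : Type) (_ : NormedAddCommGroup H) (_ : InnerProductSpace ℝ H) (_ : CompleteSpace H)
    (_ : MulAction Γ H), (∀ (g : Γ) (x y : H), dist (g • x) (g • y) = dist x y) ∧
      ∀ (x : H) (r : ℝ), {g : Γ | dist (g • x) x ≤ r}.Finite

end Pool.Agent.Lib.MP_b169d2_gt
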