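import Pool.Agent.Lib.MP_b169d2_gt.D

/-! Deep sections of a bounded automaton are finitary or directed. -/

namespace Pool.Agent.Lib.MP_b169d2_gt.SS

open List

variable {G X : Type} [Group G] {S : SS G X}

lemma seL_loop {u : G} {w : List X} (h : S.seL u w = u) (i : ℕ) :
    S.seL u (replicate i w).flatten = u := by
  induction i <;> simp_all [replicate_succ, seL_append]

theorem pow_Nu [Finite X] {N : Set G} (hN : N.Finite) (hs : ∀ g ∈ N, ∀ x, S.se g x ∈ N) {B : ℕ}
    (hB : ∀ g ∈ N, ∀ k, {v : List X | v.length = k ∧ S.seL g v ≠ 1}.ncard ≤ B) :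
    ∃ T, 0 < T ∧ ∀ g ∈ N, ∀ z, (S.pow T).se g z ∈ (S.pow T).Nu := by
  have hsL : ∀ v, ∀ g ∈ N, S.seL g v ∈ N := fun v => by
    induction v with
    | nil => exact fun _ h => h
    | cons x v ih => exact fun g hg => ih _ (hs g hg x)
  obtain ⟨c, hc⟩ : ∃ c, ∀ g ∈ N, (∃ k, ∀ v : List X, k ≤ v.length → S.seL g v = 1) →
      ∀ v : List X, c ≤ v.length → S.seL g v = 1 := by
    have : ∀ᶠ c in Filter.atTop, ∀ g ∈ N, (∃ k, ∀ v : List X, k ≤ v.length → S.seL g v = 1) →
        ∀ v : List X, c ≤ v.length → S.seL g v = 1 := by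
      refine hN.eventually_all.2 fun g _ => ?_
      by_cases h : ∃ k, ∀ v : List X, k ≤ v.length → S.seL g v = 1
      · obtain ⟨k, hk⟩ := h
        exact (Filter.eventually_ge_atTop k).mono fun c h _ v hv => hk v (h.trans hv)
      · exact .of_forall fun _ h' => absurd h' h
    exact this.exists
  obtain ⟨D, hD⟩ : ∃ D : G → Prop, ∀ g, D g ↔ ∀ v : List X, c ≤ v.length → S.seL g v = 1 :=
    ⟨_, fun _ => Iff.rfl⟩
  have ext : ∀ g ∈ N, ¬ D g → ∀ k, ∃ v : List X, v.length = k ∧ ¬ D (S.seL g v) := by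
    intro g hg h k
    by_contra h'
    push Not at h'
    refine h ((hD g).2 (hc g hg ⟨k + c, fun v hv => ?_⟩))
    rw [← take_append_drop k v, seL_append]
    exact (hD _).1 (h' _ (by simp; omega)) _ (by simp; omega)
  have U0 : ∀ u ∈ N, ∀ W a : List X, S.seL u W = u → a.length = W.length → ¬ D (S.seL u a) →
      a = W := by
    intro u hu W a h1 h2 h3
    by_contra hne
    choose e e1 e2 using fun i : ℕ => ext _ (hsL a u hu) h3 ((B - i) * W.length)
    have key : ∀ i j : ℕ, i < j → (replicate i W).flatten ++ (a ++ e i) ≠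
        (replicate j W).flatten ++ (a ++ e j) := fun i j hij h => by
      obtain ⟨k, rfl⟩ := Nat.exists_eq_add_of_lt hij
      rw [add_assoc, replicate_add, flatten_append, append_assoc, append_cancel_left_eq,
        replicate_succ, flatten_cons, append_assoc] at h
      exact hne (append_inj h h2).1
    have := (Set.ncard_le_ncard_of_injOn (s := Set.Iic B)
      (fun i => (replicate i W).flatten ++ (a ++ e i)) (fun i hi => ?_) (fun i _ j _ h => ?_)
      ((List.finite_length_eq X ((B + 1) * W.length)).subset fun _ h => h.1)).trans (hB u hu _)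
    · simp at this
    · refine ⟨?_, fun h => e2 i ?_⟩
      · obtain ⟨k, rfl⟩ := Nat.exists_eq_add_of_le (show i ≤ B from hi)
        simp [h2, e1]; ring
      · rw [seL_append, seL_loop h1, seL_append] at h
        rw [h, hD]; simp
    · by_contra hij
      rcases lt_or_gt_of_ne hij with h' | h'
      exacts [key _ _ h' h, key _ _ h' h.symm]
  have U : ∀ u ∈ N, ∀ w a b : List X, S.seL u w = u → 0 < w.length → a.length = b.length →
      ¬ D (S.seL u a) → ¬ D (S.seL u b) → a = b := by
    intro u hu w a b h1 h2 h3 h4 h5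
    have := Nat.le_mul_of_pos_right a.length h2
    obtain ⟨a', a1, a2⟩ := ext _ (hsL a u hu) h4 (a.length * w.length - a.length)
    obtain ⟨b', b1, b2⟩ := ext _ (hsL b u hu) h5 (a.length * w.length - a.length)
    rw [← seL_append] at a2 b2
    exact (append_inj ((U0 u hu _ _ (seL_loop h1 a.length) (by simp; omega) a2).trans
      (U0 u hu _ _ (seL_loop h1 a.length) (by simp; omega) b2).symm) h3).1
  have T1 := Nat.self_le_factorial (N.ncard + c + 1)
  refine ⟨(N.ncard + c + 1).factorial, Nat.factorial_pos _, fun g hg z => ?_⟩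
  have dead : ∀ t, D t → t ∈ (S.pow (N.ncard + c + 1).factorial).F0 := fun t ht y =>
    (hD t).1 ht _ (by rw [y.2]; omega)
  obtain ⟨v, hv⟩ := z
  change S.seL g v ∈ _
  by_cases h : D (S.seL g v)
  · exact .inl (dead _ h)
  obtain ⟨i, j, hij, hj, e⟩ : ∃ i j, i < j ∧ j ≤ N.ncard ∧
      S.seL g (v.take i) = S.seL g (v.take j) := by
    obtain ⟨i, hi, j, hj, h1, h2⟩ := Set.exists_ne_map_eq_of_ncard_lt_of_maps_to
      (s := Set.Iic N.ncard) (by simp) (fun i _ => hsL (v.take i) g hg) hN
    rcases lt_or_gt_of_ne h1 with h' | h'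
    exacts [⟨i, j, h', hj, h2⟩, ⟨j, i, h', hi, h2.symm⟩]
  have hu := hsL (v.take i) g hg
  have l1 : S.seL (S.seL g (v.take i)) ((v.take j).drop i) = S.seL g (v.take i) := by
    rw [← seL_append, e, ← min_eq_left hij.le, ← take_take, min_eq_left hij.le, take_append_drop]
  have l2 : ((v.take j).drop i).length = j - i := by simp; omega
  have l3 : S.seL g v = S.seL (S.seL g (v.take i)) (v.drop i) := by
    rw [← seL_append, take_append_drop]
  obtain ⟨k, hk⟩ := Nat.dvd_factorial (m := j - i) (n := N.ncard + c + 1) (by omega) (by omega)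
  obtain ⟨y, y1, y2⟩ := ext _ (hsL v g hg) h (N.ncard + c + 1).factorial
  have l4 : S.seL (S.seL g v) y = S.seL g v := by
    have := U _ hu _ ((replicate k ((v.take j).drop i)).flatten ++ v.drop i) (v.drop i ++ y) l1
      (by omega) (by simp only [length_append, length_flatten, map_replicate, sum_replicate, l2,
        y1, hk, smul_eq_mul]; ring) (by rwa [seL_append, seL_loop l1, ← l3])
      (by rwa [seL_append, ← l3])
    rw [l3, ← seL_append, ← this, seL_append, seL_loop l1]
  refine .inr ⟨⟨y, y1⟩, l4, fun x hx => dead _ ?_⟩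
  by_contra h'
  exact hx (Subtype.ext (U0 _ (hsL v g hg) _ _ l4 (x.2.trans y1.symm) h'))

end Pool.Agent.Lib.MP_b169d2_gt.SS
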