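import Pool.Agent.Lib.MP_b169d2_gt.Defs
import Pool.Agent.Lib.MP_b169d2_gt.E

/-! Cocycles from almost invariant functions; self-similar groups of permutations. -/

namespace Pool.Agent.Lib.MP_b169d2_gt

open scoped ENNReal

theorem haagerup_of {Γ Ω : Type} [Group Γ] [MulAction Γ Ω] (ξ : Ω → ℝ)
    (h1 : ∀ g : Γ, ∑' ω, dq (ξ (g • ω)) (ξ ω) ≠ ⊤)
    (h2 : ∀ R : ℕ, {g : Γ | ∑' ω, dq (ξ (g⁻¹ • ω)) (ξ ω) ≤ R}.Finite) : HasHaagerupProperty Γ := by
  have two : (2 : ℝ≥0∞).toReal = 2 := rfl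
  have p2 : 0 < (2 : ℝ≥0∞).toReal := by simp
  have e : ∀ x y : ℝ, ‖x - y‖ ^ (2 : ℝ≥0∞).toReal = (dq x y).toReal := fun x y => by
    simp [dq, sq_nonneg]
  have m1 : ∀ g : Γ, Memℓp (fun ω => ξ (g⁻¹ • ω) - ξ ω) 2 := fun g =>
    memℓp_gen (by simpa only [e] using ENNReal.summable_toReal (h1 g⁻¹))
  have m2 : ∀ (g : Γ) (x : lp (fun _ : Ω => ℝ) 2), Memℓp (fun ω => x (g⁻¹ • ω)) 2 := fun g x =>
    memℓp_gen ((MulAction.toPerm g⁻¹).summable_iff.2 ((lp.memℓp x).summable p2))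
  let a : MulAction Γ (lp (fun _ : Ω => ℝ) 2) :=
    { smul := fun g x => ⟨fun ω => x (g⁻¹ • ω) + (ξ (g⁻¹ • ω) - ξ ω), (m2 g x).add (m1 g)⟩
      one_smul := fun x => lp.ext (funext fun ω => show x (1⁻¹ • ω) + (ξ (1⁻¹ • ω) - ξ ω) = _ by
        simp)
      mul_smul := fun g h x => lp.ext (funext fun ω => show
        x ((g * h)⁻¹ • ω) + (ξ ((g * h)⁻¹ • ω) - ξ ω) = x (h⁻¹ • g⁻¹ • ω) +
          (ξ (h⁻¹ • g⁻¹ • ω) - ξ (g⁻¹ • ω)) + (ξ (g⁻¹ • ω) - ξ ω) by
          rw [mul_inv_rev, mul_smul]; ring) }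
  have ap : ∀ (g : Γ) (x : lp (fun _ : Ω => ℝ) 2) ω,
      (g • x) ω = x (g⁻¹ • ω) + (ξ (g⁻¹ • ω) - ξ ω) := fun _ _ _ => rfl
  have iso : ∀ (g : Γ) (x y : lp (fun _ : Ω => ℝ) 2), dist (g • x) (g • y) = dist x y := by
    intro g x y
    rw [dist_eq_norm, dist_eq_norm, lp.norm_eq_tsum_rpow p2, lp.norm_eq_tsum_rpow p2,
      ← (MulAction.toPerm g⁻¹).tsum_eq fun ω => ‖(x - y) ω‖ ^ (2 : ℝ≥0∞).toReal]
    simp [ap]
    rfl
  refine ⟨_, _, inferInstance, inferInstance, a, iso, fun x r =>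
    (h2 ⌈(r + 2 * ‖x‖) ^ 2⌉₊).subset fun g hg => ?_⟩
  have h3 : ‖g • (0 : lp (fun _ : Ω => ℝ) 2)‖ ≤ r + 2 * ‖x‖ := by
    have := dist_triangle4 (g • 0) (g • x) x 0
    rw [iso, dist_zero_right, dist_zero_left, dist_zero_right] at this
    have : dist (g • x) x ≤ r := hg
    linarith
  have h4 := lp.norm_rpow_eq_tsum p2 (g • (0 : lp (fun _ : Ω => ℝ) 2))
  simp only [ap, lp.coeFn_zero, Pi.zero_apply, zero_add, e] at h4
  rw [← ENNReal.tsum_toReal_eq fun _ => dq_ne_top _ _, two, Real.rpow_two] at h4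
  rw [Set.mem_ofPred_eq, ← ENNReal.ofReal_toReal (h1 g⁻¹), ← h4, ← ENNReal.ofReal_natCast]
  exact ENNReal.ofReal_le_ofReal ((pow_le_pow_left₀ (norm_nonneg _) h3 2).trans (Nat.le_ceil _))

variable {X : Type}

lemma emb_inj [Nontrivial X] {h h' : Equiv.Perm (Stream' X)} {v v' : List X}
    (e : ∀ z, v ++ₛ h z = v' ++ₛ h' z) : v = v' ∧ h = h' := by
  have key : ∀ (h h' : Equiv.Perm (Stream' X)) x (l : List X),
      ¬ ∀ z, [] ++ₛ h z = (x :: l) ++ₛ h' z := fun h h' x l e => by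
    obtain ⟨y, hy⟩ := exists_ne x
    have := congrArg Stream'.head (e (h.symm (Stream'.const y)))
    rw [h.apply_symm_apply] at this
    exact hy this
  induction v generalizing v' with
  | nil =>
    cases v' with
    | nil => exact ⟨rfl, Equiv.ext e⟩
    | cons x l => exact absurd e (key _ _ _ _)
  | cons x l ih =>
    cases v' with
    | nil => exact absurd (fun z => (e z).symm) (key _ _ _ _)
    | cons y l' =>
      have h1 : x = y := congrArg Stream'.head (e (Stream'.const x))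
      have h2 := ih fun z => congrArg Stream'.tail (e z)
      exact ⟨by rw [h1, h2.1], h2.2⟩

lemma split (k : ℕ) (z : Stream' X) : ∃ (v : List X) (z' : Stream' X), v.length = k ∧
    z = v ++ₛ z' := ⟨z.take k, z.drop k, by simp, (Stream'.append_take_drop k z).symm⟩

theorem exists_SS [Nontrivial X] {N : Set (Equiv.Perm (Stream' X))}
    (hN : ∀ g ∈ N, ∀ x : X, ∃ h ∈ N, IsSection g [x] h) :
    ∃ S : SS (Subgroup.closure N) X,
      ∀ v g z, g.1 (v ++ₛ z) = S.imL g v ++ₛ (S.seL g v).1 z := by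
  have : ∀ g ∈ Subgroup.closure N, ∀ x : X, ∃ y, ∃ h ∈ Subgroup.closure N,
      ∀ z, g ([x] ++ₛ z) = [y] ++ₛ h z := by
    intro g hg
    induction hg using Subgroup.closure_induction with
    | mem g hg =>
      intro x
      obtain ⟨h, h1, w, h2, h3⟩ := hN g hg x
      obtain ⟨y, rfl⟩ := List.length_eq_one_iff.1 h2
      exact ⟨y, h, Subgroup.subset_closure h1, h3⟩
    | one => exact fun x => ⟨x, 1, one_mem _, fun _ => rfl⟩
    | mul g g' _ _ h1 h2 =>
      intro x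
      obtain ⟨y, h, hh, e⟩ := h2 x
      obtain ⟨y', h', hh', e'⟩ := h1 y
      exact ⟨y', h' * h, mul_mem hh' hh, fun z => by simp only [Equiv.Perm.mul_apply, e, e']⟩
    | inv g _ h1 =>
      intro y
      obtain ⟨w, z0, h2, h3⟩ := split 1 (g⁻¹ (Stream'.const y))
      obtain ⟨x, rfl⟩ := List.length_eq_one_iff.1 h2
      obtain ⟨y', h, hh, e⟩ := h1 x
      obtain rfl : y = y' := by
        have := e z0
        rw [← h3] at this
        exact congrArg Stream'.head ((g.apply_symm_apply _).symm.trans this)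
      exact ⟨x, h⁻¹, inv_mem hh, fun z => by
        rw [Equiv.Perm.inv_eq_iff_eq, e]; simp⟩
  choose im se h1 h2 using this
  have uq : ∀ g hg x y h, (∀ z, g ([x] ++ₛ z) = [y] ++ₛ h z) → im g hg x = y ∧ se g hg x = h :=
    fun g hg x y h e => by simpa using emb_inj fun z => (h2 g hg x z).symm.trans (e z)
  have o := fun x => uq 1 (one_mem _) x x 1 fun _ => rfl
  have m := fun (g h : Subgroup.closure N) x => uq (g * h).1 (g * h).2 x (im g.1 g.2 (im h.1 h.2 x))
    (se g.1 g.2 (im h.1 h.2 x) * se h.1 h.2 x) fun z => by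
      simp only [Subgroup.coe_mul, Equiv.Perm.mul_apply, h2 h.1 h.2, h2 g.1 g.2]
  refine ⟨⟨fun g => im g.1 g.2, fun g x => ⟨se g.1 g.2 x, h1 g.1 g.2 x⟩, fun x => (o x).1,
    fun x => Subtype.ext (o x).2, fun g h x => (m g h x).1, fun g h x => Subtype.ext (m g h x).2⟩,
    fun v => ?_⟩
  induction v with
  | nil => exact fun _ _ => rfl
  | cons x v ih =>
    intro g z
    exact (h2 g.1 g.2 x (v ++ₛ z)).trans (congrArg (Stream'.cons _) (ih ⟨_, h1 g.1 g.2 x⟩ z))

theorem exists_good [Finite X] [Nontrivial X] {N : Set (Equiv.Perm (Stream' X))}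
    (hN : IsBoundedAutomaton N) {S : SS (Subgroup.closure N) X}
    (hS : ∀ v g z, g.1 (v ++ₛ z) = S.imL g v ++ₛ (S.seL g v).1 z) : ∃ F M, S.Good F M := by
  have sec : ∀ (g : Subgroup.closure N) v h, IsSection g.1 v h → (S.seL g v).1 = h :=
    fun g v h ⟨w, _, e⟩ => (emb_inj fun z => (hS v g z).symm.trans (e z)).2
  obtain ⟨B, hB⟩ := hN.bounded
  obtain ⟨T, hT, h⟩ := SS.pow_Nu (S := S) (N := Subtype.val ⁻¹' N) (B := B)
    (hN.finite.preimage Subtype.val_injective.injOn) (fun g hg x => by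
      obtain ⟨h, h1, h2⟩ := hN.selfSimilar g hg x
      exact Set.mem_preimage.2 ((show (S.se g x).1 = h from sec g _ h h2) ▸ h1)) fun g hg k => by
    refine le_trans (Set.ncard_le_ncard ?_ ?_) (hB g hg k)
    · exact fun v hv => ⟨hv.1, fun h => hv.2 (Subtype.ext (sec g v 1 h))⟩
    · exact (List.finite_length_eq X k).subset fun _ h => h.1
  have := Fintype.ofFinite X
  have : Nonempty (List.Vector X T) := ⟨.replicate T (Classical.arbitrary X)⟩
  refine (SS.good_of_Nu (S := S.pow T) (fun U hU g hg => ?_)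
    (Subgroup.closure_closure_coe_preimage (k := N)) h).elim fun F ⟨M, hF⟩ =>
      (hF.ofPow hT).imp fun _ h => ⟨M, h⟩
  have : ∀ n, ∀ g ∈ U, ∀ z, (g.1 z).get n = z.get n := fun n => by
    induction n using Nat.strong_induction_on with
    | _ n ih =>
      intro g hg z
      obtain ⟨v, z, hv, rfl⟩ := split T z
      obtain ⟨h1, h2⟩ := hU g hg ⟨v, hv⟩
      rw [hS, show S.imL g v = v from congrArg Subtype.val h1]
      rcases lt_or_ge n v.length with h | h
      · rw [Stream'.get_append_left _ _ _ h, Stream'.get_append_left _ _ _ h]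
      · obtain ⟨m, rfl⟩ := Nat.exists_eq_add_of_le h
        rw [Stream'.get_append_right, Stream'.get_append_right]
        exact ih m (by omega) _ h2 z
  exact Subtype.ext (Equiv.ext fun z => Stream'.ext fun n => this n g hg z)

end Pool.Agent.Lib.MP_b169d2_gt
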