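import Pool.Agent.Lib.MP_b169d2_gt.F

/-! From almost invariant weights to a proper cocycle of the Roever-Nekrashevych group. -/

namespace Pool.Agent.Lib.MP_b169d2_gt

open scoped ENNReal Classical
open SS

variable {X : Type}

lemma fin_split [Fintype X] {G : Type} (k : ℕ) (f : List X × G → ℝ≥0∞)
    (h1 : ∀ v : List X, v.length < k → ∑' h, f (v, h) ≠ ⊤)
    (h2 : ∀ v : List X, v.length = k → ∑' e, f (pre v e) ≠ ⊤) : ∑' e, f e ≠ ⊤ := by
  induction k generalizing f with
  | zero => exact h2 [] rfl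
  | succ k ih =>
    exact ne_top_of_le_ne_top (ENNReal.add_ne_top.2 ⟨h1 [] k.succ_pos, ENNReal.sum_ne_top.2
      fun x _ => ih _ (fun v hv => h1 (x :: v) (by simpa using hv))
        fun v hv => h2 (x :: v) (by simpa using hv)⟩) (tsum_split f)

variable {G : Subgroup (Equiv.Perm (Stream' X))} {S : SS G X}
  (hS : ∀ v g z, g.1 (v ++ₛ z) = S.imL g v ++ₛ (S.seL g v).1 z)

variable (G) in
/-- Piecewise similarities. -/
def PW (γ : Equiv.Perm (Stream' X)) : Prop :=
  ∃ k : ℕ, ∀ v : List X, v.length = k → ∃ w : List X, ∃ h ∈ G, ∀ z, γ (v ++ₛ z) = w ++ₛ h z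

include hS in
lemma PW.inv [Finite X] [Nonempty X] {γ : Equiv.Perm (Stream' X)} (h : PW G γ) : PW G γ⁻¹ := by
  obtain ⟨k, h⟩ := h
  choose w g hg e using fun v : List.Vector X k => h v.1 v.2
  obtain ⟨K, hK⟩ := (Set.finite_range fun v => (w v).length).bddAbove
  refine ⟨K, fun u hu => ?_⟩
  obtain ⟨v, z0, hv, e0⟩ := split k (γ⁻¹ (u ++ₛ Stream'.const (Classical.arbitrary X)))
  have l : (w ⟨v, hv⟩).length ≤ K := hK ⟨_, rfl⟩
  have e1 := e ⟨v, hv⟩ z0
  rw [← e0, ← List.take_append_drop (w ⟨v, hv⟩).length u, Stream'.append_append_stream] at e1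
  have e2 := Stream'.append_left_injective _ _ _ _ ((γ.apply_symm_apply _).symm.trans e1)
    (by simp; omega)
  refine ⟨v ++ S.imL (⟨_, hg ⟨v, hv⟩⟩ : G)⁻¹ (u.drop (w ⟨v, hv⟩).length), _,
    (S.seL (⟨_, hg ⟨v, hv⟩⟩ : G)⁻¹ (u.drop (w ⟨v, hv⟩).length)).2, fun z => ?_⟩
  rw [Equiv.Perm.inv_eq_iff_eq, Stream'.append_append_stream, ← hS, e ⟨v, hv⟩]
  conv_lhs => rw [← List.take_append_drop (w ⟨v, hv⟩).length u, Stream'.append_append_stream, e2]
  simp

/-- The embedding of the Cantor space given by a word and a group element. -/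
def emb (e : List X × G) : Stream' X → Stream' X := fun z => e.1 ++ₛ e.2.1 z

lemma emb_injective [Nontrivial X] : Function.Injective (emb (G := G)) := fun _ _ h =>
  Prod.ext (emb_inj (congrFun h)).1 (Subtype.ext (emb_inj (congrFun h)).2)

include hS in
theorem haagerup [Fintype X] [Nontrivial X] {F : List X × G → ℝ} {M : Finset G} (hF : S.Good F M) :
    HasHaagerupProperty (roverNekrashevych G) := by
  obtain ⟨ξ, x1, x2⟩ : ∃ ξ : (Stream' X → Stream' X) → ℝ, (∀ e, ξ (emb e) = F e) ∧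
      ∀ ω, ξ ω ≠ 0 → ∃ w, ∃ h ∈ M, ω = emb (w, h) := by
    refine ⟨Function.extend emb F 0, emb_injective.extend_apply _ _, fun ω h => ?_⟩
    by_cases e : ∃ e : List X × G, emb e = ω
    · obtain ⟨⟨w, g⟩, rfl⟩ := e
      rw [emb_injective.extend_apply] at h
      exact ⟨w, g, by_contra fun hg => h (hF.supp w g hg), rfl⟩
    · exact absurd (Function.extend_apply' _ _ _ e) h
  obtain ⟨E, hE⟩ : ∃ E : Equiv.Perm (Stream' X) → ℝ≥0∞,
      ∀ γ, E γ = ∑' ω, dq (ξ (γ • ω)) (ξ ω) := ⟨_, fun _ => rfl⟩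
  have sy : ∀ γ, E γ⁻¹ = E γ := fun γ => by
    rw [hE, hE, ← (MulAction.toPerm γ).tsum_eq]
    exact tsum_congr fun ω => (dq_comm _ _).trans (congrArg _ (congrArg ξ (inv_smul_smul γ ω)))
  have half : ∀ γ, PW G γ →
      ∑' ω, {ω | ξ ω ≠ 0}.indicator (fun ω => dq (ξ (γ • ω)) (ξ ω)) ω ≠ ⊤ := by
    rintro γ ⟨k, hk⟩
    rw [← emb_injective.tsum_eq fun ω h => ?_]
    · refine fin_split k _ (fun v _ => ?_) fun v hv => ?_
      · rw [tsum_eq_sum (s := M) fun h hh => by simp [x1, hF.supp v h hh]]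
        exact ENNReal.sum_ne_top.2 fun _ _ =>
          ne_top_of_le_ne_top (dq_ne_top _ _) (Set.indicator_le_self _ _ _)
      · obtain ⟨w, h, hh, e⟩ := hk v hv
        refine ne_top_of_le_ne_top (hF.move w v ⟨h, hh⟩) (ENNReal.tsum_le_tsum fun p =>
          (Set.indicator_le_self _ _ _).trans_eq ?_)
        have : γ • emb (pre v p) = emb (pre w (S.act ⟨h, hh⟩ p)) := funext fun z => by
          simp [emb, pre, act, e, ← hS]
        simp only [this, x1]
    · obtain ⟨w, g, -, e⟩ := x2 ω (Set.support_indicator_subset h)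
      exact ⟨_, e.symm⟩
  have fin : ∀ γ ∈ roverNekrashevych G, E γ ≠ ⊤ := by
    intro γ hγ
    induction hγ using Subgroup.closure_induction with
    | mem γ h =>
      refine ne_top_of_le_ne_top (ENNReal.add_ne_top.2 ⟨half γ h, half _ (PW.inv hS h)⟩) ?_
      rw [hE, ← (MulAction.toPerm γ).tsum_eq
        ({ω | ξ ω ≠ 0}.indicator fun ω => dq (ξ (γ⁻¹ • ω)) (ξ ω)), ← ENNReal.tsum_add]
      refine ENNReal.tsum_le_tsum fun ω => ?_
      change _ ≤ _ + {ω | ξ ω ≠ 0}.indicator (fun ω => dq (ξ (γ⁻¹ • ω)) (ξ ω)) (γ • ω)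
      by_cases h1 : ξ ω = 0 <;> by_cases h2 : ξ (γ • ω) = 0 <;> simp [h1, h2, dq_comm]
    | one => simp [hE]
    | mul g g' _ _ h1 h2 =>
      rw [hE] at *
      simp only [mul_smul]
      exact fin_tri (((MulAction.toPerm g').tsum_eq fun ω => dq (ξ (g • ω)) (ξ ω)).trans_ne h1) h2
    | inv g _ h => rwa [sy]
  obtain ⟨MM, hMM⟩ : ∃ MM : Finset G, ∀ a ∈ M, ∀ b ∈ M, a * b⁻¹ ∈ MM :=
    ⟨Finset.image₂ (fun a b => a * b⁻¹) M M, fun a ha b hb => Finset.mem_image₂_of_mem ha hb⟩
  have lev : ∀ (R : ℕ) γ, E γ ≤ R → ∃ l ≤ R * M.card, ∀ v : List X, v.length = l →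
      ∃ w, ∃ h ∈ MM, ∀ z, γ (v ++ₛ z) = w ++ₛ h.1 z := by
    intro R γ hγ
    by_contra hc
    push Not at hc
    choose! v v1 v2 using hc
    have z : ∀ l ≤ R * M.card, ∀ h ∈ M, ξ (γ • emb (v l, h)) = 0 := fun l hl h hh => by
      by_contra h0
      obtain ⟨w, h', hh', e⟩ := x2 _ h0
      obtain ⟨z, hz⟩ := v2 l hl w _ (hMM h' hh' h hh)
      exact hz (by simpa [emb] using congrFun e (h⁻¹.1 z))
    have i : Function.Injective fun p : Fin (R * M.card + 1) × M => emb (v p.1, p.2.1) := by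
      intro p q e
      have e := Prod.ext_iff.1 (emb_injective e)
      refine Prod.ext (Fin.ext ?_) (Subtype.ext e.2)
      rw [← v1 _ (Nat.le_of_lt_succ p.1.2), ← v1 _ (Nat.le_of_lt_succ q.1.2)]
      exact congrArg _ e.1
    have := (ENNReal.tsum_comp_le_tsum_of_injective i _).trans ((hE γ).symm.trans_le hγ)
    rw [tsum_fintype, Fintype.sum_prod_type] at this
    have b : ∀ l : Fin (R * M.card + 1),
        1 ≤ (M.card : ℝ≥0∞) * ∑ h : M, dq (ξ (γ • emb (v l, h.1))) (ξ (emb (v l, h.1))) := by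
      intro l
      rw [Finset.sum_coe_sort M fun h => dq (ξ (γ • emb (v l, h))) (ξ (emb (v l, h))),
        Finset.sum_congr rfl fun h hh => by rw [z _ (Nat.le_of_lt_succ l.2) h hh, x1, dq],
        ← ENNReal.ofReal_sum_of_nonneg fun _ _ => sq_nonneg _, ← ENNReal.ofReal_natCast,
        ← ENNReal.ofReal_mul (by positivity), ENNReal.one_le_ofReal]
      simpa [hF.mass] using sq_sum_le_card_mul_sum_sq (s := M) (f := fun h => F (v l, h))
    have := ((Finset.sum_le_sum fun l _ => b l).trans_eq (Finset.mul_sum _ _ _).symm).trans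
      (mul_le_mul_right this _)
    simp only [Finset.sum_const, Finset.card_univ, Fintype.card_fin, nsmul_eq_mul, mul_one] at this
    rw [mul_comm (M.card : ℝ≥0∞)] at this
    norm_cast at this
    omega
  refine haagerup_of ξ (fun g => hE g.1 ▸ fin g.1 g.2) fun R => ?_
  have := List.finite_length_le X (2 * (R * M.card))
  have : Finite {w : List X // w.length ≤ 2 * (R * M.card)} := this
  refine ((Set.finite_Iic (R * M.card)).biUnion fun l _ => Set.finite_iUnion
    fun φ : List.Vector X l → {w : List X // w.length ≤ 2 * (R * M.card)} × MM =>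
      Set.Subsingleton.finite (s := {γ : roverNekrashevych G | ∀ v z, γ.1 (v.1 ++ₛ z) =
        (φ v).1.1 ++ₛ (φ v).2.1.1 z}) fun a ha b hb => ?_).subset fun g hg => ?_
  · refine Subtype.ext (Equiv.ext fun z => ?_)
    obtain ⟨v, z, hv, rfl⟩ := split l z
    exact (ha ⟨v, hv⟩ z).trans (hb ⟨v, hv⟩ z).symm
  have h1 : E g.1⁻¹ ≤ R := hE _ ▸ hg
  obtain ⟨l', l1, l2⟩ := lev R _ h1
  obtain ⟨l, l3, l4⟩ := lev R _ (sy g.1 ▸ h1)
  choose w h hh e using fun v : List.Vector X l => l4 v.1 v.2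
  have len : ∀ v, (w v).length ≤ 2 * (R * M.card) := fun v => by
    by_contra hc
    obtain ⟨u, h', -, e'⟩ := l2 ((w v).take l') (by simp; omega)
    have := (emb_inj (h := 1) (v := v.1) (v' := u ++ S.imL h' ((w v).drop l'))
      (h' := (S.seL h' ((w v).drop l') * h v).1) fun z => by
        rw [Stream'.append_append_stream, Subgroup.coe_mul, Equiv.Perm.mul_apply, ← hS, ← e',
          ← Stream'.append_append_stream, List.take_append_drop, ← e]
        simp).1
    have := congrArg List.length this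
    simp only [v.2, List.length_append, length_imL, List.length_drop] at this
    omega
  simp only [Set.mem_iUnion]
  exact ⟨l, l3, fun v => (⟨w v, len v⟩, ⟨h v, hh v⟩), e⟩

end Pool.Agent.Lib.MP_b169d2_gt
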